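import Mathlib
import Pool.Agent.H211.HY.Stm1
import Pool.Graph.R_seed8.H790R3.RB.TWR
import Pool.Graph.R_seed8.H790R3.RB.TCHAIN

/-! HY211 TRIP (helper400 for helper211): three uniformly separated preimages. -/

set_option autoImplicit false

open Topology Filter Metric Set Polynomial

namespace Pool.Agent.H400.HY211

open Pool.Agent.H790R3.RB Pool.Agent.H211.HY

namespace TRIP

/-- a component of the map on the line `b + z w` -/
noncomputable def lp {d : ℕ} (x : CV d) (i : Fin 2) (b w : ℂ × ℂ) : ℂ[X] :=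
  ∑ j : Fin (d + 1), C (x (i, j)) *
    ((C w.1 * X + C b.1) ^ (j : ℕ) * (C w.2 * X + C b.2) ^ (d - (j : ℕ)))

theorem lp_eval0 {d : ℕ} (x : CV d) (b w : ℂ × ℂ) (z : ℂ) :
    (lp x 0 b w).eval z = (hF x (b + z • w)).1 := by
  unfold lp hF
  rw [eval_finsetSum]
  refine Finset.sum_congr rfl fun j _ => ?_
  simp only [eval_mul, eval_pow, eval_add, eval_C, eval_X, Prod.fst_add, Prod.snd_add,
    Prod.smul_fst, Prod.smul_snd, smul_eq_mul]
  ring

theorem lp_eval1 {d : ℕ} (x : CV d) (b w : ℂ × ℂ) (z : ℂ) :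
    (lp x 1 b w).eval z = (hF x (b + z • w)).2 := by
  unfold lp hF
  rw [eval_finsetSum]
  refine Finset.sum_congr rfl fun j _ => ?_
  simp only [eval_mul, eval_pow, eval_add, eval_C, eval_X, Prod.fst_add, Prod.snd_add,
    Prod.smul_fst, Prod.smul_snd, smul_eq_mul]
  ring

theorem lp_deg {d : ℕ} (x : CV d) (i : Fin 2) (b w : ℂ × ℂ) : (lp x i b w).natDegree ≤ d := by
  unfold lp
  refine natDegree_sum_le_of_forall_le _ _ fun j _ => ?_
  refine (natDegree_C_mul_le _ _).trans ?_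
  have h1 : ((C w.1 * X + C b.1 : ℂ[X]) ^ (j : ℕ)).natDegree ≤ (j : ℕ) * 1 :=
    natDegree_pow_le_of_le _ natDegree_linear_le
  have h2 : ((C w.2 * X + C b.2 : ℂ[X]) ^ (d - (j : ℕ))).natDegree ≤ (d - (j : ℕ)) * 1 :=
    natDegree_pow_le_of_le _ natDegree_linear_le
  refine (natDegree_mul_le_of_le h1 h2).trans ?_
  have := j.2
  omega

theorem lin_coeff (u v : ℂ) (m : ℕ) : ((C u * X + C v : ℂ[X]) ^ m).coeff m = u ^ m := by
  have h := coeff_pow_of_natDegree_le (m := m) (natDegree_linear_le (a := u) (b := v))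
  rw [mul_one] at h
  rw [h]
  simp

theorem lp_coeff {d : ℕ} (x : CV d) (i : Fin 2) (b w : ℂ × ℂ) : (lp x i b w).coeff d =
    ∑ j : Fin (d + 1), x (i, j) * (w.1 ^ (j : ℕ) * w.2 ^ (d - (j : ℕ))) := by
  unfold lp
  rw [finsetSum_coeff]
  refine Finset.sum_congr rfl fun j _ => ?_
  rw [coeff_C_mul]
  have h1 : ((C w.1 * X + C b.1 : ℂ[X]) ^ (j : ℕ)).natDegree ≤ (j : ℕ) := by
    have := natDegree_pow_le_of_le (j : ℕ) (natDegree_linear_le (a := w.1) (b := b.1))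
    rwa [mul_one] at this
  have h2 : ((C w.2 * X + C b.2 : ℂ[X]) ^ (d - (j : ℕ))).natDegree ≤ (d - (j : ℕ)) := by
    have := natDegree_pow_le_of_le (d - (j : ℕ)) (natDegree_linear_le (a := w.2) (b := b.2))
    rwa [mul_one] at this
  have h3 := coeff_mul_add_eq_of_natDegree_le h1 h2
  have h4 : (j : ℕ) + (d - (j : ℕ)) = d := by have := j.2; omega
  rw [h4, lin_coeff, lin_coeff] at h3
  rw [h3]

/-- the polynomial `z ↦ cr (hF x (b + z w)) a` -/
noncomputable def gp {d : ℕ} (x : CV d) (b w a : ℂ × ℂ) : ℂ[X] :=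
  C a.2 * lp x 0 b w - C a.1 * lp x 1 b w

theorem gp_eval {d : ℕ} (x : CV d) (b w a : ℂ × ℂ) (z : ℂ) :
    (gp x b w a).eval z = cr (hF x (b + z • w)) a := by
  unfold gp cr
  rw [eval_sub, eval_mul, eval_mul, eval_C, eval_C, lp_eval0, lp_eval1]
  ring

theorem gp_deg {d : ℕ} (x : CV d) (b w a : ℂ × ℂ) : (gp x b w a).natDegree ≤ d := by
  unfold gp
  refine (natDegree_sub_le _ _).trans (max_le ?_ ?_)
  · exact (natDegree_C_mul_le _ _).trans (lp_deg _ _ _ _)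
  · exact (natDegree_C_mul_le _ _).trans (lp_deg _ _ _ _)

theorem gp_coeff {d : ℕ} (x : CV d) (b w a : ℂ × ℂ) : (gp x b w a).coeff d = cr (hF x w) a := by
  unfold gp cr
  rw [coeff_sub, coeff_C_mul, coeff_C_mul, lp_coeff, lp_coeff]
  unfold hF
  ring

theorem gp_natDegree {d : ℕ} (x : CV d) {b w a : ℂ × ℂ} (h : cr (hF x w) a ≠ 0) :
    (gp x b w a).natDegree = d := by
  refine le_antisymm (gp_deg _ _ _ _) (le_natDegree_of_ne_zero ?_)
  rw [gp_coeff]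
  exact h

theorem gp_ne {d : ℕ} (x : CV d) {b w a : ℂ × ℂ} (h : cr (hF x w) a ≠ 0) : gp x b w a ≠ 0 := by
  intro h0
  have := gp_coeff x b w a
  rw [h0, coeff_zero] at this
  exact h this.symm

theorem gp_card {d : ℕ} (x : CV d) {b w a : ℂ × ℂ} (h : cr (hF x w) a ≠ 0) :
    (gp x b w a).roots.card = d := by
  rw [splits_iff_card_roots.mp (IsAlgClosed.splits _), gp_natDegree x h]

/-- directions have preimages -/
theorem surj {d : ℕ} (hd : 1 ≤ d) (x : CV d) (a : ℂ × ℂ) :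
    ∃ p : ℂ × ℂ, p ≠ 0 ∧ cr (hF x p) a = 0 := by
  by_cases h : cr (hF x (1, 0)) a = 0
  · exact ⟨(1, 0), fun h0 => by simpa using congrArg Prod.fst h0, h⟩
  · have h1 : (gp x (0, 1) (1, 0) a).roots.card = d := gp_card x h
    have h2 : 0 < (gp x (0, 1) (1, 0) a).roots.card := by omega
    obtain ⟨z, hz⟩ := Multiset.card_pos_iff_exists_mem.mp h2
    have h3 := (mem_roots'.mp hz).2
    rw [IsRoot.def, gp_eval] at h3
    refine ⟨(0, 1) + z • (1, 0), fun h0 => ?_, h3⟩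
    simpa using congrArg Prod.snd h0

/-- a vector which is not parallel -/
def pp (a : ℂ × ℂ) : ℂ × ℂ := (-(starRingEnd ℂ) a.2, (starRingEnd ℂ) a.1)

theorem cr_pp {a : ℂ × ℂ} (ha : a ≠ 0) : cr a (pp a) ≠ 0 := by
  intro h
  unfold cr pp at h
  simp only [mul_neg, sub_neg_eq_add] at h
  rw [Complex.mul_conj, Complex.mul_conj, ← Complex.ofReal_add, Complex.ofReal_eq_zero] at h
  have h1 := Complex.normSq_nonneg a.1
  have h2 := Complex.normSq_nonneg a.2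
  exact ha (Prod.ext (Complex.normSq_eq_zero.mp (by linarith))
    (Complex.normSq_eq_zero.mp (by linarith)))

theorem pp_ne {a : ℂ × ℂ} (ha : a ≠ 0) : pp a ≠ 0 := by
  intro h
  have := cr_pp ha
  rw [h] at this
  exact this (by simp [cr])

theorem cr_symm {p q : ℂ × ℂ} (h : cr p q = 0) : cr q p = 0 := by
  rw [cr_comm, h, neg_zero]

/-- a vector whose image is not parallel to `a` -/
theorem exists_w {d : ℕ} (hd : 1 ≤ d) {x : CV d} (hx : ND x) {a : ℂ × ℂ} (ha : a ≠ 0) :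
    ∃ w : ℂ × ℂ, w ≠ 0 ∧ cr (hF x w) a ≠ 0 := by
  obtain ⟨w, hw0, hw⟩ := surj hd x (pp a)
  refine ⟨w, hw0, fun h => ?_⟩
  have h1 : hF x w ≠ 0 := fun h0 => hw0 (hx _ h0)
  exact cr_pp ha (cr_trans h1 (cr_symm h) hw)

theorem prod_ge (ε : ℝ) (h0 : 0 ≤ ε) (s : Multiset ℂ) :
    (∀ z ∈ s, ε ≤ ‖z‖) → ε ^ s.card ≤ ‖s.prod‖ := by
  refine Multiset.induction_on s ?_ ?_
  · intro _
    simp
  · intro a s ih h
    rw [Multiset.card_cons, Multiset.prod_cons, norm_mul, pow_succ, mul_comm]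
    exact mul_le_mul (h a (Multiset.mem_cons_self a s))
      (ih fun z hz => h z (Multiset.mem_cons_of_mem hz)) (pow_nonneg h0 _) (norm_nonneg _)

theorem small_root {d : ℕ} (x : CV d) {b w a : ℂ × ℂ} (h : cr (hF x w) a ≠ 0) {ε : ℝ}
    (hε : 0 ≤ ε) (hs : ‖cr (hF x b) a‖ < ‖cr (hF x w) a‖ * ε ^ d) :
    ∃ z : ℂ, ‖z‖ < ε ∧ cr (hF x (b + z • w)) a = 0 := by
  by_contra hcon
  push Not at hcon
  have h1 := (IsAlgClosed.splits (gp x b w a)).eval_eq_prod_roots 0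
  rw [gp_eval, zero_smul, add_zero] at h1
  have h2 : (gp x b w a).leadingCoeff = cr (hF x w) a := by
    rw [leadingCoeff, gp_natDegree x h, gp_coeff]
  rw [h2] at h1
  have h3 : ε ^ d ≤ ‖((gp x b w a).roots.map (fun z => 0 - z)).prod‖ := by
    have h4 := prod_ge ε hε ((gp x b w a).roots.map (fun z => 0 - z)) (by
      intro y hy
      obtain ⟨z, hz, rfl⟩ := Multiset.mem_map.mp hy
      rw [zero_sub, norm_neg]
      by_contra hlt
      push Not at hlt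
      refine hcon z hlt ?_
      rw [← gp_eval]
      exact (mem_roots'.mp hz).2)
    rwa [Multiset.card_map, gp_card x h] at h4
  rw [h1, norm_mul] at hs
  have h5 : 0 < ‖cr (hF x w) a‖ := norm_pos_iff.mpr h
  exact absurd (lt_of_mul_lt_mul_left hs h5.le) (not_lt.mpr h3)

theorem cr_cont : Continuous fun q : (ℂ × ℂ) × (ℂ × ℂ) => cr q.1 q.2 := by
  unfold cr
  fun_prop

/-- openness, one step -/
theorem open1 {d : ℕ} (hd : 1 ≤ d) {x : CV d} (hx : ND x) {a b : ℂ × ℂ} (ha : a ≠ 0)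
    (h : cr (hF x b) a = 0) {ε : ℝ} (hε : 0 < ε) :
    ∀ᶠ a' in 𝓝 a, ∃ b' : ℂ × ℂ, ‖b' - b‖ < ε ∧ cr (hF x b') a' = 0 := by
  obtain ⟨w, hw0, hw⟩ := exists_w hd hx ha
  have hwn : 0 < ‖w‖ := norm_pos_iff.mpr hw0
  set ε' : ℝ := ε / ‖w‖ with hε'
  have hε'0 : 0 < ε' := div_pos hε hwn
  have c1 : Continuous fun a' : ℂ × ℂ => ‖cr (hF x b) a'‖ :=
    (cr_cont.comp (continuous_const.prodMk continuous_id)).norm
  have c2 : Continuous fun a' : ℂ × ℂ => ‖cr (hF x w) a'‖ :=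
    (cr_cont.comp (continuous_const.prodMk continuous_id)).norm
  have e1 : ∀ᶠ a' in 𝓝 a, ‖cr (hF x b) a'‖ < ‖cr (hF x w) a'‖ * ε' ^ d := by
    refine ContinuousAt.eventually_lt c1.continuousAt (c2.mul continuous_const).continuousAt ?_
    rw [h, norm_zero]
    exact mul_pos (norm_pos_iff.mpr hw) (pow_pos hε'0 _)
  have e2 : ∀ᶠ a' in 𝓝 a, 0 < ‖cr (hF x w) a'‖ :=
    c2.continuousAt.eventually_const_lt (norm_pos_iff.mpr hw)
  filter_upwards [e1, e2] with a' h1 h2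
  obtain ⟨z, hz, hz0⟩ := small_root x (norm_pos_iff.mp h2) hε'0.le h1
  refine ⟨b + z • w, ?_, hz0⟩
  rw [add_sub_cancel_left, norm_smul]
  calc ‖z‖ * ‖w‖ < ε' * ‖w‖ := mul_lt_mul_of_pos_right hz hwn
    _ = ε := by rw [hε']; field_simp

/-- openness of the iterates -/
theorem openN {d : ℕ} (hd : 1 ≤ d) {x : CV d} (hx : ND x) (N : ℕ) : ∀ {a b : ℂ × ℂ}, a ≠ 0 →
    b ≠ 0 → cr ((hF x)^[N] b) a = 0 → ∀ {ε : ℝ}, 0 < ε →
    ∀ᶠ a' in 𝓝 a, ∃ b' : ℂ × ℂ, ‖b' - b‖ < ε ∧ b' ≠ 0 ∧ cr ((hF x)^[N] b') a' = 0 := by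
  induction N with
  | zero =>
    intro a b ha hb h ε hε
    obtain ⟨t, ht, rfl⟩ := (cr_eq_zero_iff hb ha).mp h
    have c : Continuous fun a' : ℂ × ℂ => ‖t • a' - t • a‖ := by fun_prop
    have e1 : ∀ᶠ a' in 𝓝 a, ‖t • a' - t • a‖ < ε := by
      refine c.continuousAt.eventually_lt_const ?_
      simpa using hε
    filter_upwards [e1, isOpen_ne.mem_nhds ha] with a' h1 h2
    refine ⟨t • a', h1, smul_ne_zero ht h2, ?_⟩
    change cr (t • a') a' = 0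
    rw [cr_smul_left, cr_self, mul_zero]
  | succ N ih =>
    intro a b ha hb h ε hε
    have hb1 : (hF x)^[N] b ≠ 0 := hx.iter_ne N hb
    have h1 := ih hb1 hb (cr_self _) hε
    obtain ⟨ε1, hε1, h2⟩ := Metric.eventually_nhds_iff.mp (h1.and (isOpen_ne.mem_nhds hb1))
    rw [Function.iterate_succ_apply'] at h
    filter_upwards [open1 hd hx ha h hε1] with a' ha'
    obtain ⟨b1, hb1', hb1a⟩ := ha'
    obtain ⟨⟨b', hb', hb0, hb'1⟩, hb1ne⟩ := h2 (by rwa [dist_eq_norm])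
    refine ⟨b', hb', hb0, ?_⟩
    rw [Function.iterate_succ_apply']
    have h3 := cr_iter x 1 (hx.iter_ne N hb0) hb1ne hb'1
    simp only [Function.iterate_one] at h3
    have h4 : hF x b1 ≠ 0 := fun h0 => hb1ne (hx _ h0)
    exact cr_trans h4 h3 hb1a

/-- two preimages or a critical one -/
theorem two {d : ℕ} (hd : 2 ≤ d) {x : CV d} (hx : ND x) {a : ℂ × ℂ} (ha : a ≠ 0) :
    (∃ p q : ℂ × ℂ, p ≠ 0 ∧ q ≠ 0 ∧ cr p q ≠ 0 ∧ cr (hF x p) a = 0 ∧ cr (hF x q) a = 0) ∨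
      ∃ c : ℂ × ℂ, c ≠ 0 ∧ wr x c = 0 ∧ cr (hF x c) a = 0 := by
  obtain ⟨w, hw0, hw⟩ := exists_w (by omega) hx ha
  have hbw : cr w (pp w) ≠ 0 := cr_pp hw0
  set b := pp w with hb
  set g := gp x b w a with hg
  have hgne : g ≠ 0 := gp_ne x hw
  have hcard : g.roots.card = d := gp_card x hw
  have hcr : ∀ z z' : ℂ, cr (b + z • w) (b + z' • w) = (z - z') * cr w b := by
    intro z z'
    simp only [cr, Prod.fst_add, Prod.snd_add, Prod.smul_fst, Prod.smul_snd, smul_eq_mul]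
    ring
  have hcw : ∀ z : ℂ, cr w (b + z • w) = cr w b := by
    intro z
    simp only [cr, Prod.fst_add, Prod.snd_add, Prod.smul_fst, Prod.smul_snd, smul_eq_mul]
    ring
  have hne : ∀ z : ℂ, b + z • w ≠ 0 := by
    intro z h0
    have := hcw z
    rw [h0] at this
    exact hbw (by rw [← this]; simp [cr])
  obtain ⟨z₀, hz₀⟩ := Multiset.card_pos_iff_exists_mem.mp (show 0 < g.roots.card by omega)
  have hz₀' : cr (hF x (b + z₀ • w)) a = 0 := by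
    rw [← gp_eval]
    exact (mem_roots'.mp hz₀).2
  by_cases hall : ∀ z ∈ g.roots, z = z₀
  · right
    refine ⟨b + z₀ • w, hne z₀, ?_, hz₀'⟩
    have hrep : g.roots = Multiset.replicate d z₀ := by
      rw [Multiset.eq_replicate]
      exact ⟨hcard, hall⟩
    have hmul : 1 < g.rootMultiplicity z₀ := by
      rw [← count_roots, hrep, Multiset.count_replicate_self]
      omega
    have hder := ((one_lt_rootMultiplicity_iff_isRoot hgne).mp hmul).2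
    rw [IsRoot.def] at hder
    set c := b + z₀ • w with hc
    -- derivative along the line
    have hline : HasDerivAt (fun z : ℂ => b + z • w) w z₀ := by
      have h1 := ((hasDerivAt_id z₀).smul_const w).const_add b
      simpa using h1
    have hF' : HasFDerivAt (hF x) (fderiv ℂ (hF x) c) c := (CHAIN.one_diff x c).hasFDerivAt
    have hcomp : HasDerivAt (fun z : ℂ => hF x (b + z • w)) (fderiv ℂ (hF x) c w) z₀ :=
      HasFDerivAt.comp_hasDerivAt z₀ (f := fun z : ℂ => b + z • w) hF' hline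
    have hA := HasFDerivAt.comp_hasDerivAt z₀
      ((ContinuousLinearMap.fst ℂ ℂ ℂ).hasFDerivAt (x := hF x (b + z₀ • w))) hcomp
    have hB := HasFDerivAt.comp_hasDerivAt z₀
      ((ContinuousLinearMap.snd ℂ ℂ ℂ).hasFDerivAt (x := hF x (b + z₀ • w))) hcomp
    have hcrd : HasDerivAt (fun z : ℂ => cr (hF x (b + z • w)) a)
        (cr (fderiv ℂ (hF x) c w) a) z₀ := (hA.mul_const a.2).sub (hB.mul_const a.1)
    have hpoly : HasDerivAt (fun z : ℂ => cr (hF x (b + z • w)) a) (g.derivative.eval z₀) z₀ := by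
      have h1 := g.hasDerivAt z₀
      have h2 : (fun z : ℂ => g.eval z) = fun z : ℂ => cr (hF x (b + z • w)) a := by
        funext z
        exact gp_eval x b w a z
      rw [← h2]
      exact h1
    have hw' : cr (fderiv ℂ (hF x) c w) a = 0 := by
      rw [hcrd.unique hpoly, hder]
    have heul : fderiv ℂ (hF x) c c = ((d ^ 1 : ℕ) : ℂ) • hF x c := by
      have := CHAIN.euler x 1 c
      simpa using this
    have hc' : cr a (fderiv ℂ (hF x) c c) = 0 := by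
      rw [heul, cr_smul_right, cr_symm hz₀', mul_zero]
    have hfin := cr_trans ha hw' hc'
    rw [(WR d x hd).2.2 c w c, hcw z₀] at hfin
    exact (mul_eq_zero.mp hfin).resolve_right hbw
  · left
    push Not at hall
    obtain ⟨z, hz, hzz⟩ := hall
    refine ⟨b + z • w, b + z₀ • w, hne z, hne z₀, ?_, ?_, hz₀'⟩
    · rw [hcr]
      exact mul_ne_zero (sub_ne_zero.mpr hzz) hbw
    · rw [← gp_eval]
      exact (mem_roots'.mp hz).2

theorem ce_ne {d : ℕ} {x : CV d} (hce : CE x) {c : ℂ × ℂ} (hc : c ≠ 0) (hw : wr x c = 0) (n : ℕ) :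
    wr x ((hF x)^[n + 1] c) ≠ 0 := by
  obtain ⟨C, hC, μ, hμ, h⟩ := hce c hc hw
  intro h0
  have h1 := h (n + 1)
  have h2 : sdn x (n + 1) (hF x c) = 0 := by
    unfold sdn
    refine Finset.prod_eq_zero (Finset.mem_range.mpr (Nat.lt_succ_self n)) ?_
    unfold sd
    rw [← Function.iterate_succ_apply, h0, norm_zero, zero_mul, zero_div]
  rw [h2] at h1
  have : 0 < C * μ ^ (n + 1) := mul_pos hC (pow_pos (by linarith) _)
  linarith

theorem wr_par {d : ℕ} (hd : 2 ≤ d) (x : CV d) {p q : ℂ × ℂ} (hp : p ≠ 0) (hq : q ≠ 0)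
    (h : cr p q = 0) (hw : wr x q = 0) : wr x p = 0 := by
  obtain ⟨a, -, rfl⟩ := (cr_eq_zero_iff hp hq).mp h
  rw [(WR d x hd).1, hw, mul_zero]

/-- the image of a preimage -/
theorem step {d : ℕ} {x : CV d} (hx : ND x) (N : ℕ) {p q a : ℂ × ℂ} (hp : p ≠ 0) (hq : q ≠ 0)
    (h1 : cr (hF x q) p = 0) (h2 : cr ((hF x)^[N] p) a = 0) : cr ((hF x)^[N + 1] q) a = 0 := by
  have h3 := cr_iter x N (fun h0 => hq (hx _ h0)) hp h1
  rw [← Function.iterate_succ_apply] at h3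
  exact cr_trans (hx.iter_ne N hp) h3 h2

/-- preimages of different directions are different -/
theorem diff {d : ℕ} {x : CV d} (N : ℕ) {p q a b : ℂ × ℂ} (hp : p ≠ 0) (hq : q ≠ 0) (hx : ND x)
    (h1 : cr ((hF x)^[N] p) a = 0) (h2 : cr ((hF x)^[N] q) b = 0) (hab : cr a b ≠ 0) :
    cr p q ≠ 0 := by
  intro h
  have h3 := cr_iter x N hp hq h
  exact hab (cr_trans (hx.iter_ne N hp) (cr_symm h1) (cr_trans (hx.iter_ne N hq) h3 h2))

/-- preimages of critical points: two of them -/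
theorem two_crit {d : ℕ} (hd : 2 ≤ d) {x : CV d} (hx : ND x) (hce : CE x) {c : ℂ × ℂ} (hc : c ≠ 0)
    (hw : wr x c = 0) : ∃ p q : ℂ × ℂ, p ≠ 0 ∧ q ≠ 0 ∧ cr p q ≠ 0 ∧ cr (hF x p) c = 0 ∧
      cr (hF x q) c = 0 := by
  rcases two hd hx hc with h | ⟨c', hc', hw', h⟩
  · exact h
  · exact absurd (wr_par hd x (fun h0 => hc' (hx _ h0)) hc h hw) (ce_ne hce hc' hw' 0)

/-- preimages of preimages of critical points: two of them -/
theorem two_crit2 {d : ℕ} (hd : 2 ≤ d) {x : CV d} (hx : ND x) (hce : CE x) {c p : ℂ × ℂ}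
    (hc : c ≠ 0) (hw : wr x c = 0) (hp : p ≠ 0) (hpc : cr (hF x p) c = 0) :
    ∃ q r : ℂ × ℂ, q ≠ 0 ∧ r ≠ 0 ∧ cr q r ≠ 0 ∧ cr (hF x q) p = 0 ∧ cr (hF x r) p = 0 := by
  rcases two hd hx hp with h | ⟨c', hc', hw', h⟩
  · exact h
  · have h2 : cr ((hF x)^[1 + 1] c') c = 0 := step hx 1 hp hc' h hpc
    exact absurd (wr_par hd x (hx.iter_ne _ hc') hc h2 hw) (ce_ne hce hc' hw' 1)

/-- two preimages under the second iterate -/
theorem two2 {d : ℕ} (hd : 2 ≤ d) {x : CV d} (hx : ND x) (hce : CE x) {a : ℂ × ℂ} (ha : a ≠ 0) :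
    ∃ p q : ℂ × ℂ, p ≠ 0 ∧ q ≠ 0 ∧ cr p q ≠ 0 ∧ cr ((hF x)^[2] p) a = 0 ∧
      cr ((hF x)^[2] q) a = 0 := by
  rcases two hd hx ha with ⟨p, q, hp, hq, hpq, h1, h2⟩ | ⟨c, hc, hw, h⟩
  · obtain ⟨p', hp', h3⟩ := surj (by omega) x p
    obtain ⟨q', hq', h4⟩ := surj (by omega) x q
    exact ⟨p', q', hp', hq', diff 1 hp' hq' hx h3 h4 hpq, step hx 1 hp hp' h3 h1,
      step hx 1 hq hq' h4 h2⟩
  · obtain ⟨p, q, hp, hq, hpq, h1, h2⟩ := two_crit hd hx hce hc hw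
    exact ⟨p, q, hp, hq, hpq, step hx 1 hc hp h1 h, step hx 1 hc hq h2 h⟩

/-- three preimages under the third iterate -/
theorem three {d : ℕ} (hd : 2 ≤ d) {x : CV d} (hx : ND x) (hce : CE x) {a : ℂ × ℂ} (ha : a ≠ 0) :
    ∃ p q r : ℂ × ℂ, (p ≠ 0 ∧ q ≠ 0 ∧ r ≠ 0) ∧ (cr p q ≠ 0 ∧ cr p r ≠ 0 ∧ cr q r ≠ 0) ∧
      cr ((hF x)^[3] p) a = 0 ∧ cr ((hF x)^[3] q) a = 0 ∧ cr ((hF x)^[3] r) a = 0 := by
  rcases two hd hx ha with ⟨p, q, hp, hq, hpq, h1, h2⟩ | ⟨c, hc, hw, h⟩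
  · obtain ⟨p1, p2, hp1, hp2, hpp, h3, h4⟩ := two2 hd hx hce hp
    obtain ⟨q1, q2, hq1, -, -, h5, -⟩ := two2 hd hx hce hq
    have s : ∀ {b p' : ℂ × ℂ}, b ≠ 0 → p' ≠ 0 → cr ((hF x)^[2] p') b = 0 → cr (hF x b) a = 0 →
        cr ((hF x)^[3] p') a = 0 := by
      intro b p' hb hp' e1 e2
      rw [Function.iterate_succ_apply']
      have e3 := cr_iter x 1 (hx.iter_ne 2 hp') hb e1
      exact cr_trans (fun h0 => hb (hx _ h0)) e3 e2
    exact ⟨p1, p2, q1, ⟨hp1, hp2, hq1⟩, ⟨hpp, diff 2 hp1 hq1 hx h3 h5 hpq,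
      diff 2 hp2 hq1 hx h4 h5 hpq⟩, s hp hp1 h3 h1, s hp hp2 h4 h1, s hq hq1 h5 h2⟩
  · obtain ⟨p, q, hp, hq, hpq, h1, h2⟩ := two_crit hd hx hce hc hw
    obtain ⟨p1, p2, hp1, hp2, hpp, h3, h4⟩ := two_crit2 hd hx hce hc hw hp h1
    obtain ⟨q1, hq1, h5⟩ := surj (by omega) x q
    have e1 : cr ((hF x)^[2] p) a = 0 := step hx 1 hc hp h1 h
    have e2 : cr ((hF x)^[2] q) a = 0 := step hx 1 hc hq h2 h
    exact ⟨p1, p2, q1, ⟨hp1, hp2, hq1⟩, ⟨hpp, diff 1 hp1 hq1 hx h3 h5 hpq,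
      diff 1 hp2 hq1 hx h4 h5 hpq⟩, step hx 2 hp hp1 h3 e1, step hx 2 hp hp2 h4 e1,
      step hx 2 hq hq1 h5 e2⟩

theorem N2_pos {p : ℂ × ℂ} (hp : p ≠ 0) : 0 < N2 p := by
  unfold N2
  by_cases h1 : p.1 = 0
  · have h2 : p.2 ≠ 0 := fun h2 => hp (Prod.ext h1 h2)
    have := norm_pos_iff.mpr h2
    positivity
  · have := norm_pos_iff.mpr h1
    positivity

theorem cho_pos {p q : ℂ × ℂ} (hp : p ≠ 0) (hq : q ≠ 0) (h : cr p q ≠ 0) : 0 < cho p q := by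
  unfold cho
  have h1 := mul_pos (N2_pos hp) (N2_pos hq)
  exact div_pos (norm_pos_iff.mpr h) (Real.sqrt_pos.mpr h1)

theorem cho_cont {p q : ℂ × ℂ} (hp : p ≠ 0) (hq : q ≠ 0) :
    ContinuousAt (fun r : (ℂ × ℂ) × (ℂ × ℂ) => cho r.1 r.2) (p, q) := by
  have h1 := mul_pos (N2_pos hp) (N2_pos hq)
  have c1 : Continuous fun r : (ℂ × ℂ) × (ℂ × ℂ) => ‖cr r.1 r.2‖ := cr_cont.norm
  have c2 : Continuous fun r : (ℂ × ℂ) × (ℂ × ℂ) => Real.sqrt (N2 r.1 * N2 r.2) := by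
    unfold N2
    fun_prop
  exact c1.continuousAt.div c2.continuousAt (Real.sqrt_pos.mpr h1).ne'

/-- separated triples -/
def TT {d : ℕ} (x : CV d) (a : ℂ × ℂ) (σ : ℝ) : Prop :=
  ∃ b : Fin 3 → ℂ × ℂ, (∀ i, b i ≠ 0 ∧ cr ((hF x)^[3] (b i)) a = 0) ∧
    ∀ i j, i ≠ j → σ ≤ cho (b i) (b j)

theorem TT.mono {d : ℕ} {x : CV d} {a : ℂ × ℂ} {σ σ' : ℝ} (h : TT x a σ) (hs : σ' ≤ σ) :
    TT x a σ' := by
  obtain ⟨b, h1, h2⟩ := h
  exact ⟨b, h1, fun i j hij => hs.trans (h2 i j hij)⟩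

theorem local_sep {d : ℕ} (hd : 2 ≤ d) {x : CV d} (hx : ND x) (hce : CE x) {a : ℂ × ℂ}
    (ha : a ≠ 0) : ∃ σ > (0 : ℝ), ∀ᶠ a' in 𝓝 a, TT x a' σ := by
  obtain ⟨p, q, r, ⟨hp, hq, hr⟩, ⟨hpq, hpr, hqr⟩, h1, h2, h3⟩ := three hd hx hce ha
  set b : Fin 3 → ℂ × ℂ := ![p, q, r] with hb
  have hb0 : ∀ i, b i ≠ 0 := by
    intro i
    fin_cases i
    · exact hp
    · exact hq
    · exact hr
  have hba : ∀ i, cr ((hF x)^[3] (b i)) a = 0 := by
    intro i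
    fin_cases i
    · exact h1
    · exact h2
    · exact h3
  have hbb : ∀ i j, i ≠ j → cr (b i) (b j) ≠ 0 := by
    intro i j hij
    fin_cases i <;> fin_cases j
    · exact absurd rfl hij
    · exact hpq
    · exact hpr
    · exact fun h => hpq (cr_symm h)
    · exact absurd rfl hij
    · exact hqr
    · exact fun h => hpr (cr_symm h)
    · exact fun h => hqr (cr_symm h)
    · exact absurd rfl hij
  -- the minimal distance
  have hpos : ∀ i j, i ≠ j → 0 < cho (b i) (b j) := fun i j hij =>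
    cho_pos (hb0 i) (hb0 j) (hbb i j hij)
  obtain ⟨σ, hσ, hσb⟩ : ∃ σ > (0 : ℝ), ∀ i j, i ≠ j → σ < cho (b i) (b j) := by
    have hfin : ∀ e : Fin 3 × Fin 3, ∃ σ > (0 : ℝ), e.1 ≠ e.2 → σ < cho (b e.1) (b e.2) := by
      intro e
      by_cases he : e.1 = e.2
      · exact ⟨1, one_pos, fun h => absurd he h⟩
      · exact ⟨cho (b e.1) (b e.2) / 2, half_pos (hpos _ _ he), fun _ => half_lt_self (hpos _ _ he)⟩
    choose s hs0 hs using hfin
    refine ⟨Finset.univ.inf' Finset.univ_nonempty s, ?_, fun i j hij => ?_⟩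
    · exact (Finset.lt_inf'_iff _).mpr fun e _ => hs0 e
    · exact (Finset.inf'_le s (Finset.mem_univ (i, j))).trans_lt (hs (i, j) hij)
  have hnear : ∀ᶠ b' in 𝓝 b, ∀ i j, i ≠ j → σ < cho (b' i) (b' j) := by
    refine Filter.eventually_all.mpr fun i => Filter.eventually_all.mpr fun j => ?_
    by_cases hij : i = j
    · exact Filter.Eventually.of_forall fun _ h => absurd hij h
    · have c1 : ContinuousAt (fun b' : Fin 3 → ℂ × ℂ => (b' i, b' j)) b := by fun_prop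
      have c2 : ContinuousAt (fun b' : Fin 3 → ℂ × ℂ => cho (b' i) (b' j)) b :=
        ContinuousAt.comp (f := fun b' : Fin 3 → ℂ × ℂ => (b' i, b' j))
          (g := fun r : (ℂ × ℂ) × (ℂ × ℂ) => cho r.1 r.2) (cho_cont (hb0 i) (hb0 j)) c1
      filter_upwards [c2.eventually_const_lt (hσb i j hij)] with b' hb' _
      exact hb'
  obtain ⟨ε, hε, hnear⟩ := Metric.eventually_nhds_iff.mp hnear
  refine ⟨σ, hσ, ?_⟩
  have hev : ∀ᶠ a' in 𝓝 a, ∀ i, ∃ b' : ℂ × ℂ, ‖b' - b i‖ < ε ∧ b' ≠ 0 ∧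
      cr ((hF x)^[3] b') a' = 0 :=
    Filter.eventually_all.mpr fun i => openN (by omega) hx 3 ha (hb0 i) (hba i) hε
  filter_upwards [hev] with a' ha'
  choose b' h4 h5 h6 using ha'
  refine ⟨b', fun i => ⟨h5 i, h6 i⟩, fun i j hij => (hnear ?_ i j hij).le⟩
  rw [dist_pi_lt_iff hε]
  intro k
  rw [dist_eq_norm]
  exact h4 k

end TRIP

open TRIP in
/-- three uniformly separated preimages under the third iterate -/
theorem t_TRIP : S_TRIP := by
  intro d x hd hx hce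
  have hcomp : IsCompact (sphere (0 : ℂ × ℂ) 1) := isCompact_sphere _ _
  obtain ⟨σ, hσ, h⟩ : ∃ σ > (0 : ℝ), ∀ a ∈ sphere (0 : ℂ × ℂ) 1, TT x a σ := by
    refine hcomp.induction_on (p := fun s => ∃ σ > (0 : ℝ), ∀ a ∈ s, TT x a σ) ?_ ?_ ?_ ?_
    · exact ⟨1, one_pos, fun a ha => absurd ha (notMem_empty a)⟩
    · rintro s t hst ⟨σ, hσ, h⟩
      exact ⟨σ, hσ, fun a ha => h a (hst ha)⟩
    · rintro s t ⟨σ, hσ, h⟩ ⟨σ', hσ', h'⟩
      refine ⟨min σ σ', lt_min hσ hσ', fun a ha => ?_⟩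
      rcases ha with ha | ha
      · exact (h a ha).mono (min_le_left _ _)
      · exact (h' a ha).mono (min_le_right _ _)
    · intro a ha
      have ha0 : a ≠ 0 := by
        rintro rfl
        simp at ha
      obtain ⟨σ, hσ, h⟩ := local_sep hd hx hce ha0
      exact ⟨{a' | TT x a' σ}, mem_nhdsWithin_of_mem_nhds h, σ, hσ, fun a' ha' => ha'⟩
  refine ⟨σ, hσ, fun a ha => ?_⟩
  have hn : ‖a‖ ≠ 0 := norm_ne_zero_iff.mpr ha
  obtain ⟨b, h1, h2⟩ := h (((‖a‖⁻¹ : ℝ) : ℂ) • a) (by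
    rw [mem_sphere_zero_iff_norm, norm_smul, Complex.norm_real, norm_inv, norm_norm,
      inv_mul_cancel₀ hn])
  refine ⟨b, fun i => ⟨(h1 i).1, ?_⟩, h2⟩
  have h3 := (h1 i).2
  rw [cr_smul_right] at h3
  refine (mul_eq_zero.mp h3).resolve_left ?_
  exact Complex.ofReal_ne_zero.mpr (inv_ne_zero hn)

end Pool.Agent.H400.HY211
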